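import Mathlib

set_option autoImplicit false

/-!
# Totally symmetric distributive ternary operations

`T` is a ternary operation on `K`, invariant under all permutations of its arguments, with
`T a a b = b`, bijective in each argument, such that every map `T a b` is an automorphism of `T`.
For every `e` the operation `(x, y) ↦ w` with `T x y w = e` is an elementary abelian 2-group; so a
finite `K` has order a power of two.
-/

namespace ALoop

/-- totally symmetric distributive ternary quasigroups with `T a a b = b` -/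
structure TS {K : Type*} (T : K → K → K → K) : Prop where
  c12 : ∀ a b c, T a b c = T b a c
  c23 : ∀ a b c, T a b c = T a c b
  id : ∀ a b, T a a b = b
  inj : ∀ a b c d, T a b c = T a b d → c = d
  surj : ∀ a b c, ∃ d, T a b d = c
  dist : ∀ a b r s t, T a b (T r s t) = T (T a b r) (T a b s) (T a b t)

namespace TS

variable {K : Type*} {T : K → K → K → K}

theorem id2 (h : TS T) (a b : K) : T a b a = b := by rw [h.c23, h.id]

theorem id3 (h : TS T) (a b : K) : T a b b = a := by rw [h.c12, h.c23, h.id]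

theorem p12 (h : TS T) {a b c d : K} (h1 : T a b c = d) : T b a c = d := by rw [h.c12, h1]

theorem p23 (h : TS T) {a b c d : K} (h1 : T a b c = d) : T a c b = d := by rw [h.c23, h1]

variable {i j r s t m r' s' t' m' : K}

theorem st (h : TS T) (h1 : T i j r = r') (h2 : T i j s = s') (h3 : T i j t = t')
    (h4 : T r s t = m) (h5 : T i j m = m') : T r' s' t' = m' := by
  rw [← h1, ← h2, ← h3, ← h.dist, h4, h5]

theorem st3 (h : TS T) (h1 : T i j r = r') (h2 : T i j s = s') (h3 : T i j t = t')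
    (h4 : T r s t = m) (h5 : T r' s' t' = m') : T i j m = m' := by
  rw [← h4, h.dist, h1, h2, h3, h5]

theorem st4 (h : TS T) (h1 : T i j r = r') (h2 : T i j s = s') (h3 : T i j m = m')
    (h4 : T r s t = m) (h5 : T r' s' t' = m') : T i j t = t' := by
  apply h.inj r' s'
  rw [h5, ← h1, ← h2, ← h.dist, h4, h3]

theorem st7 (h : TS T) (h1 : T i j r = r') (h2 : T i j s = s') (h3 : T i j t = t')
    (h4 : T i j m = m') (h5 : T r' s' t' = m') : T r s t = m := by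
  apply h.inj i j
  rw [h.dist, h1, h2, h3, h4, h5]

theorem C6 (h : TS T) {o y u b z q m n : K} (h1 : T y u o = z) (h2 : T y u b = q) (h3 : T o b z = m)
    (h4 : T b z n = q) : T o m n = q := by
  obtain ⟨p9, f5⟩ : ∃ d, T m n o = d := ⟨_, rfl⟩
  obtain ⟨p14, f10⟩ : ∃ d, T b n o = d := ⟨_, rfl⟩
  obtain ⟨p18, f15⟩ : ∃ d, T o u b = d := ⟨_, rfl⟩
  obtain ⟨p25, f22⟩ : ∃ d, T y n u = d := ⟨_, rfl⟩
  obtain ⟨p34, f32⟩ : ∃ d, T m n z = d := ⟨_, rfl⟩
  obtain ⟨p37, f37⟩ : ∃ d, T y b z = d := ⟨_, rfl⟩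
  obtain ⟨p42, f45⟩ : ∃ d, T o b y = d := ⟨_, rfl⟩
  have f46 : T p42 b p18 = m := h.st f45 (h.id2 o b) (h.p23 f15) (h.p23 h1) h3
  have f47 : T p42 b q = p37 := h.st (h.p23 (h.p12 f45)) (h.id3 b y) (h.p12 (h.p23 h2))
    (h.p12 (h.p23 h1)) (h.p12 f37)
  obtain ⟨p45, f50⟩ : ∃ d, T b n u = d := ⟨_, rfl⟩
  obtain ⟨p48, f53⟩ : ∃ d, T b m q = d := ⟨_, rfl⟩
  obtain ⟨p57, f71⟩ : ∃ d, T u z b = d := ⟨_, rfl⟩
  have f73 : T p18 q b = p57 := h.st (h.p23 (h.p12 f15)) (h.p23 (h.p12 h2)) (h.id2 u b)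
    (h.p12 (h.p23 h1)) (h.p23 f71)
  have f78 : T p57 q p37 = p48 := h.st (h.p23 (h.p12 f73)) (h.id3 q b)
    (h.p12 (h.p23 (h.p12 f47))) (h.p12 (h.p23 (h.p12 f46))) (h.p12 (h.p23 f53))
  have f79 : T b z p25 = p48 := h.st3 (h.p12 (h.p23 (h.p12 f71))) h4 (h.p23 (h.p12 f37))
    (h.p12 (h.p23 (h.p12 f22))) f78
  have f80 : T z n o = p25 := h.st7 (h.id3 b z) h4 (h.p23 (h.p12 h3)) f79 (h.p23 f53)
  have f81 : T p25 q n = p34 := h.st f80 (h.p23 (h.p12 h4)) (h.id2 z n) h3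
    (h.p12 (h.p23 (h.p12 f32)))
  have f82 : T p25 n p14 = p9 := h.st (h.p23 (h.p12 f80)) (h.id3 n o) (h.p23 (h.p12 f10))
    (h.p12 (h.p23 h3)) (h.p23 (h.p12 f5))
  obtain ⟨p67, f99⟩ : ∃ d, T u n q = d := ⟨_, rfl⟩
  have f100 : T p25 n p45 = p67 := h.st (h.p12 (h.p23 (h.p12 f22))) (h.id2 u n)
    (h.p12 (h.p23 (h.p12 f50))) h2 f99
  obtain ⟨p82, f145⟩ : ∃ d, T y b n = d := ⟨_, rfl⟩
  have f148 : T p82 p14 p45 = q := h.st (h.p23 (h.p12 f145)) f10 f50 (h.p23 h1) (h.p23 h4)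
  obtain ⟨p91, f167⟩ : ∃ d, T y n q = d := ⟨_, rfl⟩
  have f168 : T n p25 p82 = p91 := h.st (h.id2 y n) f22 (h.p23 f145) h2 f167
  have f172 : T p91 p67 q = p34 := h.st (h.p23 (h.p12 f167)) (h.p23 (h.p12 f99)) (h.id2 n q)
    (h.p23 f22) (h.p12 (h.p23 (h.p12 f81)))
  have f173 : T n p25 p14 = q := h.st4 f168 (h.p12 f100) (h.p12 (h.p23 f81)) (h.p23 f148) f172
  have e174 : p9 = q := (h.p12 f82).symm.trans f173
  rw [← e174]
  exact h.p12 (h.p23 f5)

theorem kap (h : TS T) {p q s v m n1 n2 : K} (f0 : T p q s = m) (f1 : T q s n1 = v)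
    (f2 : T p q n2 = v) : T p m n1 = T s m n2 := by
  obtain ⟨v1, f3⟩ : ∃ d, T p m n1 = d := ⟨_, rfl⟩
  obtain ⟨p17, f19⟩ : ∃ d, T p s v = d := ⟨_, rfl⟩
  obtain ⟨p19, f21⟩ : ∃ d, T p s m = d := ⟨_, rfl⟩
  obtain ⟨p20, f23⟩ : ∃ d, T p s n1 = d := ⟨_, rfl⟩
  have f24 : T p20 m p = p17 := h.st f23 (h.p23 f0) (h.id3 p s) (h.p12 (h.p23 f1)) f19
  have f26 : T m p19 v1 = p17 := h.st (h.id3 m p) (h.p12 (h.p23 f21)) (h.p12 f3) f23
    (h.p23 (h.p12 f24))
  obtain ⟨p22, f29⟩ : ∃ d, T p s n2 = d := ⟨_, rfl⟩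
  have f30 : T p22 s m = p17 := h.st f29 (h.id2 p s) (h.p23 f0) (h.p12 (h.p23 f2)) f19
  have f31 : T s m n2 = v1 := h.st4 (h.p23 (h.p12 f21)) (h.id2 s m) (h.p23 (h.p12 f30)) f29
    (h.p12 f26)
  rw [f3, f31]

theorem C6' (h : TS T) {o y u b z q m n : K} (h1 : T y u o = z) (h2 : T y u b = q)
    (h3 : T o b z = m) (h4 : T o b n = q) : T z m n = q := by
  obtain ⟨n', hn'⟩ := h.surj b z q
  rw [← h.kap h3 hn' h4]
  exact h.C6 h1 h2 h3 hn'

theorem assoc (h : TS T) {e x y u w r m : K} (hw : T x y w = e) (hr : T y u r = e)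
    (hm : T w u m = e) : T x r m = e := by
  obtain ⟨t, ht⟩ : ∃ d, T x y u = d := ⟨_, rfl⟩
  obtain ⟨f, hf⟩ : ∃ d, T x t r = d := ⟨_, rfl⟩
  have hf' : T u t w = f := by rw [← h.kap ht hr hw, hf]
  obtain ⟨m2, hm2⟩ := h.surj x r e
  have h1 : T t f m = e := h.C6' ht hw (h.p23 hf') (h.p12 hm)
  have h2 : T t f m2 = e := h.C6' (h.p23 (h.p12 ht)) hr (h.p23 hf) hm2
  rw [h.inj t f m m2 (h1.trans h2.symm)]
  exact hm2

/-- the order of `K` is a power of two -/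
theorem card [Finite K] [Nonempty K] (h : TS T) : ∃ n, Nat.card K = 2 ^ n := by
  obtain ⟨e⟩ := ‹Nonempty K›
  choose f hf using fun x y => h.surj x y e
  have hu : ∀ x y w, T x y w = e → f x y = w := fun x y w hw =>
    h.inj x y _ _ ((hf x y).trans hw.symm)
  have hone : ∀ x, f e x = x := fun x => hu e x x (h.id3 e x)
  have hinv : ∀ x, f x x = e := fun x => hu x x e (h.id x e)
  have hass : ∀ x y z, f (f x y) z = f x (f y z) := fun x y z =>
    (hu _ _ _ (h.assoc (hf x y) (hf y z) (hf (f x y) z))).symm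
  let : Mul K := ⟨f⟩
  let : Inv K := ⟨fun x => x⟩
  let : One K := ⟨e⟩
  let : Group K := Group.ofLeftAxioms hass hone hinv
  have hp : IsPGroup 2 K := by
    intro x
    refine ⟨1, ?_⟩
    rw [pow_one, pow_two]
    exact hinv x
  have : Fact (Nat.Prime 2) := ⟨Nat.prime_two⟩
  exact (IsPGroup.iff_card).1 hp

end TS

end ALoop
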