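import Pool.Agent.H4.FD.Pset

set_option autoImplicit false

/-!
# General finite automorphic loops: the group generated by the multiplication group and the inversion
-/

namespace ALoop

open Equiv

variable {Q : Type*} {G : Subgroup (Perm Q)} {L : Q → Perm Q} {J : Perm Q} {e : Q}

/-- an automorphic loop with its multiplication group `G`, left translations `L`, inversion `J`,
identity `e` -/
structure AL0 (G : Subgroup (Perm Q)) (L : Q → Perm Q) (J : Perm Q) (e : Q) : Prop where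
  memL : ∀ x, L x ∈ G
  Le : ∀ x, L x e = x
  Je : J e = e
  JJ : ∀ x, J (J x) = x
  LJ : ∀ x, L x (J x) = e
  aaip : ∀ x y, J (L x y) = L (J y) (J x)
  equi : ∀ g ∈ G, g e = e → ∀ x, g * L x * g⁻¹ = L (g x)
  comJ : ∀ g ∈ G, g e = e → g * J = J * g
  JG : ∀ g ∈ G, J * g * J ∈ G

/-- the group generated by `G` and an involution `J` that normalises it -/
def hat (G : Subgroup (Perm Q)) (J : Perm Q) (hJ : J * J = 1) (hG : ∀ g ∈ G, J * g * J ∈ G) :
    Subgroup (Perm Q) where
  carrier := {g | g ∈ G ∨ g * J ∈ G}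
  one_mem' := Or.inl G.one_mem
  mul_mem' := by
    rintro a b (ha | ha) (hb | hb)
    · exact Or.inl (G.mul_mem ha hb)
    · right
      rw [mul_assoc]; exact G.mul_mem ha hb
    · right
      have h1 : a * b * J = a * J * (J * b * J) := by
        calc a * b * J = a * 1 * b * J := by group
          _ = a * (J * J) * b * J := by rw [hJ]
          _ = _ := by group
      rw [h1]; exact G.mul_mem ha (hG _ hb)
    · left
      have h1 : a * b = a * J * (J * (b * J) * J) := by
        calc a * b = a * 1 * b * 1 := by group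
          _ = a * (J * J) * b * (J * J) := by rw [hJ]
          _ = _ := by group
      rw [h1]; exact G.mul_mem ha (hG _ hb)
  inv_mem' := by
    rintro a (ha | ha)
    · exact Or.inl (G.inv_mem ha)
    · right
      have h1 : a⁻¹ * J = J * (a * J)⁻¹ * J := by
        have h2 : J⁻¹ = J := inv_eq_of_mul_eq_one_left hJ
        rw [mul_inv_rev, h2]
        calc a⁻¹ * J = 1 * a⁻¹ * J := by group
          _ = (J * J) * a⁻¹ * J := by rw [hJ]
          _ = _ := by group
      rw [h1]; exact hG _ (G.inv_mem ha)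

theorem mem_hat {hJ : J * J = 1} {hG : ∀ g ∈ G, J * g * J ∈ G} {g : Perm Q} :
    g ∈ hat G J hJ hG ↔ g ∈ G ∨ g * J ∈ G := Iff.rfl

/-- a 2-subgroup is in a Sylow 2-subgroup -/
theorem exists_syl_ge {M : Type*} [Group M] [Finite M] {K T : Subgroup M} (hT : IsPGroup 2 T)
    (hTK : T ≤ K) : ∃ S, IsSyl K S ∧ T ≤ S := by
  have h3 : IsPGroup 2 (T.subgroupOf K) := hT.comap_of_injective K.subtype K.subtype_injective
  obtain ⟨P, hP⟩ := h3.exists_le_sylow
  refine ⟨(P : Subgroup K).map K.subtype,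
    ⟨Subgroup.map_subtype_le _, P.isPGroup'.map _, ?_⟩, ?_⟩
  · have h1 : (((P : Subgroup K).map K.subtype).subgroupOf K) = (P : Subgroup K) := by
      unfold Subgroup.subgroupOf
      exact Subgroup.comap_map_eq_self_of_injective K.subtype_injective _
    unfold Subgroup.relIndex
    rw [h1]
    exact P.not_dvd_index
  · intro t ht
    exact ⟨⟨t, hTK ht⟩, hP ht, rfl⟩

theorem relIndex_Inn (K : Subgroup (Perm Q)) (e : Q) :
    (Inn K e).relIndex K = Nat.card (MulAction.orbit K e) := by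
  have h1 : (Inn K e).subgroupOf K = MulAction.stabilizer K e := by
    ext g
    rw [Subgroup.mem_subgroupOf, mem_Inn]
    exact ⟨fun hh => hh.2, fun hh => ⟨g.2, hh⟩⟩
  unfold Subgroup.relIndex
  rw [h1, MulAction.index_stabilizer]
  rfl

/-- the 2-part of the length of an orbit -/
theorem val_orbit [Finite Q] {K S P : Subgroup (Perm Q)} (hS : IsSyl (Inn K e) S)
    (hP : IsSyl K P) (hSP : S ≤ P) :
    padicValNat 2 (Nat.card (MulAction.orbit K e)) = padicValNat 2 (S.relIndex P) := by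
  have : Fact (Nat.Prime 2) := ⟨Nat.prime_two⟩
  have h1 := Subgroup.relIndex_mul_relIndex S (Inn K e) K hS.1 inf_le_left
  have h2 := Subgroup.relIndex_mul_relIndex S P K hSP hP.1
  rw [relIndex_Inn, ← h2] at h1
  have h3 : Nat.card (MulAction.orbit K e) ≠ 0 := by
    have : Nonempty (MulAction.orbit K e) := ⟨⟨e, MulAction.mem_orbit_self e⟩⟩
    exact Nat.card_pos.ne'
  have h4 : S.relIndex P ≠ 0 := Subgroup.index_ne_zero_of_finite
  have h5 : S.relIndex (Inn K e) ≠ 0 := Subgroup.index_ne_zero_of_finite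
  have h6 : P.relIndex K ≠ 0 := Subgroup.index_ne_zero_of_finite
  have h7 := congrArg (padicValNat 2) h1
  rw [padicValNat.mul h5 h3, padicValNat.mul h4 h6, padicValNat.eq_zero_of_not_dvd hS.2.2,
    padicValNat.eq_zero_of_not_dvd hP.2.2] at h7
  omega

/-- an element of a 2-group that is central on an orbit -/
theorem exists_central [Finite Q] {P : Subgroup (Perm Q)} (hP : IsPGroup 2 P) {e : Q}
    (hne : ∃ p ∈ P, p e ≠ e) :
    ∃ c ∈ P, c e ≠ e ∧ ∀ p ∈ P, ∀ r ∈ P, c (p (r e)) = p (c (r e)) := by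
  have : Fact (Nat.Prime 2) := ⟨Nat.prime_two⟩
  let f : P →* Perm (MulAction.orbit P e) := MulAction.toPermHom P (MulAction.orbit P e)
  have hf : ∀ (p : P) (x : MulAction.orbit P e), ((f p x : MulAction.orbit P e) : Q) = (p : Perm Q) x :=
    fun p x => rfl
  have h1 : IsPGroup 2 f.range := hP.of_surjective f.rangeRestrict f.rangeRestrict_surjective
  have h2 : Nontrivial f.range := by
    obtain ⟨p, hp, hpe⟩ := hne
    refine ⟨f.rangeRestrict ⟨p, hp⟩, 1, fun h => hpe ?_⟩
    have h3 : f ⟨p, hp⟩ = 1 := congrArg Subtype.val h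
    have h4 := hf ⟨p, hp⟩ ⟨e, MulAction.mem_orbit_self e⟩
    rw [h3] at h4
    exact h4.symm
  have h3 := h1.center_nontrivial
  obtain ⟨⟨z, hz⟩, hz1⟩ := exists_ne (1 : Subgroup.center f.range)
  obtain ⟨⟨c, hc⟩, hcz⟩ := z.2
  have hcom : ∀ p ∈ P, ∀ r ∈ P, c (p (r e)) = p (c (r e)) := by
    intro p hp r hr
    have h4 := (Subgroup.mem_center_iff.1 hz) (f.rangeRestrict ⟨p, hp⟩)
    have h5 : f ⟨p, hp⟩ * f ⟨c, hc⟩ = f ⟨c, hc⟩ * f ⟨p, hp⟩ := by
      rw [hcz]; exact congrArg Subtype.val h4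
    have h6 := congrArg (fun k : Perm (MulAction.orbit P e) =>
      ((k ⟨r e, ⟨⟨r, hr⟩, rfl⟩⟩ : MulAction.orbit P e) : Q)) h5
    exact h6.symm
  refine ⟨c, hc, fun hce => hz1 ?_, hcom⟩
  apply Subtype.ext
  apply Subtype.ext
  change (z : Perm (MulAction.orbit P e)) = 1
  rw [← hcz]
  ext ⟨x, r, rfl⟩
  have h4 := hcom r r.2 1 P.one_mem
  rw [Perm.one_apply, hce] at h4
  exact h4

namespace AL0

theorem JJ1 (h : AL0 G L J e) : J * J = 1 := by
  ext x; simpa using h.JJ x

theorem Jinv (h : AL0 G L J e) : J⁻¹ = J := inv_eq_of_mul_eq_one_left h.JJ1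

theorem R_apply (h : AL0 G L J e) (x y : Q) : (J * L (J y) * J) x = L x y := by
  have := h.aaip (J y) (J x)
  rw [h.JJ, h.JJ] at this
  simpa using this

theorem Le1 (h : AL0 G L J e) : L e = 1 := by
  ext x
  have := h.aaip (J x) e
  rw [h.Le, h.JJ, h.Je] at this
  simpa using this.symm

/-- the elements of `G` that fix `e` -/
theorem fix_part (h : AL0 G L J e) {g : Perm Q} (hg : g ∈ G) :
    (L (g e))⁻¹ * g ∈ G ∧ ((L (g e))⁻¹ * g) e = e := by
  refine ⟨G.mul_mem (G.inv_mem (h.memL _)) hg, ?_⟩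
  rw [Perm.mul_apply, Perm.inv_eq_iff_eq]
  exact (h.Le _).symm

/-- if `g ∈ G` fixes `e` and `x` then it commutes with `L x` -/
theorem comL (h : AL0 G L J e) {g : Perm Q} (hg : g ∈ G) (he : g e = e) {x : Q} (hx : g x = x) :
    g * L x = L x * g := by
  have := h.equi g hg he x
  rw [hx] at this
  rw [mul_inv_eq_iff_eq_mul] at this
  exact this

theorem conjG (h : AL0 G L J e) {g : Perm Q} (hg : g ∈ G) :
    g * J * g⁻¹ = D L J (g e) := by
  have hv := h.fix_part hg
  have h3 := h.comJ _ hv.1 hv.2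
  have h4 : L (g e) * ((L (g e))⁻¹ * g) = g := by group
  unfold D
  set u := (L (g e))⁻¹ * g with hu
  calc g * J * g⁻¹ = (L (g e) * u) * J * (L (g e) * u)⁻¹ := by rw [h4]
    _ = L (g e) * (u * J) * u⁻¹ * (L (g e))⁻¹ := by group
    _ = L (g e) * (J * u) * u⁻¹ * (L (g e))⁻¹ := by rw [h3]
    _ = _ := by group

/-- the group generated by `G` and `J` -/
abbrev H (h : AL0 G L J e) : Subgroup (Perm Q) := hat G J h.JJ1 h.JG

theorem le_H (h : AL0 G L J e) : G ≤ h.H := fun _ hg => Or.inl hg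

theorem J_mem (h : AL0 G L J e) : J ∈ h.H := by
  right; rw [h.JJ1]; exact G.one_mem

theorem conjH (h : AL0 G L J e) {g : Perm Q} (hg : g ∈ h.H) :
    g * J * g⁻¹ = D L J (g e) := by
  rcases hg with hg | hg
  · exact h.conjG hg
  · have h1 := h.conjG hg
    rw [Perm.mul_apply, h.Je] at h1
    rw [← h1]
    calc g * J * g⁻¹ = g * J * (J * J⁻¹) * g⁻¹ := by group
      _ = _ := by group

theorem D_conj (h : AL0 G L J e) {g : Perm Q} (hg : g ∈ h.H) (q : Q) :
    g * D L J q * g⁻¹ = D L J (g q) := by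
  have h1 := h.conjH (h.H.mul_mem hg (h.le_H (h.memL q)))
  rw [Perm.mul_apply, h.Le] at h1
  rw [← h1]; unfold D; group

theorem D_e (h : AL0 G L J e) : D L J e = J := by
  unfold D; rw [h.Le1]; group

/-- `G` is normal in the group generated by `G` and `J` -/
theorem normG (h : AL0 G L J e) {g k : Perm Q} (hg : g ∈ h.H) (hk : k ∈ G) : g * k * g⁻¹ ∈ G := by
  rcases hg with hg | hg
  · exact G.mul_mem (G.mul_mem hg hk) (G.inv_mem hg)
  · have h1 : g * k * g⁻¹ = (g * J) * (J * k * J) * (g * J)⁻¹ := by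
      rw [mul_inv_rev, h.Jinv]
      calc g * k * g⁻¹ = g * 1 * k * 1 * g⁻¹ := by group
        _ = g * (J * J) * k * (J * J) * g⁻¹ := by rw [h.JJ1]
        _ = _ := by group
    rw [h1]
    exact G.mul_mem (G.mul_mem hg (h.JG _ hk)) (G.inv_mem hg)

/-- commutators with `J` are in `G` -/
theorem commJ (h : AL0 G L J e) {g : Perm Q} (hg : g ∈ h.H) : g * J * g⁻¹ * J ∈ G := by
  rcases hg with hg | hg
  · have h1 : g * J * g⁻¹ * J = g * (J * g⁻¹ * J) := by group
    rw [h1]; exact G.mul_mem hg (h.JG _ (G.inv_mem hg))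
  · have h1 : g * J * g⁻¹ * J = (g * J) * (J * (g * J)⁻¹ * J) := by
      rw [mul_inv_rev, h.Jinv]
      calc g * J * g⁻¹ * J = g * J * 1 * g⁻¹ * J := by group
        _ = g * J * (J * J) * g⁻¹ * J := by rw [h.JJ1]
        _ = _ := by group
    rw [h1]; exact G.mul_mem hg (h.JG _ (G.inv_mem hg))

/-- `J` is central in the stabiliser of `e` -/
theorem comJH (h : AL0 G L J e) {g : Perm Q} (hg : g ∈ h.H) (hge : g e = e) : g * J = J * g := by
  have h1 := h.conjH hg
  rw [hge, h.D_e, mul_inv_eq_iff_eq_mul] at h1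
  exact h1

end AL0

end ALoop
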