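import Pool.Agent.H71.TP.Syl2

set_option autoImplicit false

/-!
# The final form: `K ⊆ M ⊆ F`
-/

namespace ALoop

open Equiv

universe u

variable {Q : Type u} {L R : Q → Perm Q} {e : Q} {F : Set Q} {r : Q → Q → Prop}

namespace Sec

/-- the congruence is invariant under the group generated by the translations of `F` -/
theorem inv_cong [Finite Q] (h : Sec L R e F r) (hL : Lp L R e) {g : Perm Q}
    (hg : g ∈ Subgroup.closure (L '' F ∪ R '' F)) :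
    (∀ a b, r a b → r (g a) (g b)) ∧ (∀ a b, r a b → r (g⁻¹ a) (g⁻¹ b)) := by
  have key : ∀ g : Perm Q, (∀ a b, r a b → r (g a) (g b)) → ∀ a b, r a b → r (g⁻¹ a) (g⁻¹ b) := by
    intro g hg a b hab
    have hi : Function.Injective (fun p : {p : Q × Q // r p.1 p.2} =>
        (⟨(g p.1.1, g p.1.2), hg _ _ p.2⟩ : {p : Q × Q // r p.1 p.2})) := by
      rintro ⟨⟨a, b⟩, h1⟩ ⟨⟨c, d⟩, h2⟩ hh
      have h3 := congrArg Subtype.val hh
      simp only [Prod.mk.injEq] at h3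
      have h4 := g.injective h3.1
      have h5 := g.injective h3.2
      subst h4; subst h5; rfl
    obtain ⟨⟨⟨c, d⟩, hcd⟩, hh⟩ := Finite.surjective_of_injective hi ⟨(a, b), hab⟩
    have h3 := congrArg Subtype.val hh
    simp only [Prod.mk.injEq] at h3
    rw [← h3.1, ← h3.2, inv_apply', inv_apply']
    exact hcd
  induction hg using Subgroup.closure_induction with
  | mem g hg =>
    have h1 : ∀ a b, r a b → r (g a) (g b) := by
      rcases hg with ⟨x, hx, rfl⟩ | ⟨x, hx, rfl⟩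
      · exact fun a b hab => h.mul x x a b (h.refl x hx) hab
      · intro a b hab
        rw [← hL.LR, ← hL.LR]
        exact h.mul a b x x hab (h.refl x hx)
    exact ⟨h1, key g h1⟩
  | one => exact ⟨fun a b hab => hab, fun a b hab => by simpa using hab⟩
  | mul g1 g2 _ _ h1 h2 =>
    have h3 : ∀ a b, r a b → r ((g1 * g2) a) ((g1 * g2) b) :=
      fun a b hab => h1.1 _ _ (h2.1 _ _ hab)
    exact ⟨h3, key _ h3⟩
  | inv g1 _ h1 => exact ⟨h1.2, fun a b hab => by rw [inv_inv]; exact h1.1 _ _ hab⟩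

end Sec

theorem Lp.sub [Finite Q] (hL : Lp L R e) {S : Set Q} (hS : ∀ x ∈ S, ∀ y ∈ S, L x y ∈ S) :
    ∀ x ∈ S, ∀ y ∈ S, L x y ∈ S ∧ (L x)⁻¹ y ∈ S ∧ (R x)⁻¹ y ∈ S := by
  intro x hx y hy
  refine ⟨hS x hx y hy, inv_mem_of_mem (hS x hx) hy, inv_mem_of_mem (fun z hz => ?_) hy⟩
  rw [← hL.LR]
  exact hS z hz x hx

theorem Lp.final [Finite Q] (hL : Lp L R e) (heven : 2 ∣ Nat.card Q) :
    ∃ K M F : Set Q, K ⊆ M ∧ M ⊆ F ∧
      (∀ S ∈ ({K, M, F} : Set (Set Q)), e ∈ S ∧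
        ∀ x ∈ S, ∀ y ∈ S, L x y ∈ S ∧ (L x)⁻¹ y ∈ S ∧ (R x)⁻¹ y ∈ S) ∧
      Nat.card M = 2 ^ padicValNat 2 (Nat.card Q) ∧
      padicValNat 2 (Nat.card F) = padicValNat 2 (Nat.card Q) ∧
      (∀ g ∈ Subgroup.closure (L '' F ∪ R '' F), g e = e → ∀ k ∈ K, g k ∈ K) ∧
      (∀ k ∈ K, L k k = e ∧ ∀ y ∈ F, L k y = L y k) ∧
      (∃ a ∈ K, a ≠ e ∧ Odd (Nat.card
        {b // ∃ g ∈ Subgroup.closure (Set.range L ∪ Set.range R), g e = e ∧ g a = b})) ∧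
      ((∀ c : Q → Q → Prop, Equivalence c → (∀ x y z w, c x y → c z w → c (L x z) (L y w)) →
        (∀ x y, c x y → x = y) ∨ (∀ x y, c x y)) → (∃ x, L x x ≠ e) → F ≠ Set.univ) := by
  obtain ⟨F, r, hs, hval, hk, ⟨a, hae, har, hodd⟩, hsim⟩ := hL.two_local heven
  obtain ⟨m, hm⟩ := hs.card_K hL hk
  have h1 := hs.card_pre hL Set.univ
  have h2 : {x | ∃ hx : x ∈ F, hs.cl x hx ∈ (Set.univ : Set hs.S)} = F := by
    ext x
    exact ⟨fun ⟨hx, _⟩ => hx, fun hx => ⟨hx, Set.mem_univ _⟩⟩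
  rw [h2, Nat.card_univ, hm] at h1
  have : Nonempty hs.S := ⟨hs.cl e hs.eF⟩
  have hSpos : 0 < Nat.card hs.S := Nat.card_pos
  obtain ⟨M', he', hM', hc'⟩ := Lp.sylow_aux (Nat.card hs.S) hs.L' (hs.R' hL) (hs.cl e hs.eF)
    (hs.lp hL) le_rfl
  have hKF : ∀ k, r k e → k ∈ F := fun k hk => (hs.rF k e hk).1
  refine ⟨{k | r k e}, {x | ∃ hx : x ∈ F, hs.cl x hx ∈ M'}, F, ?_, fun x hx => hx.1, ?_, ?_, hval,
    ?_, hk, ⟨a, har, hae, hodd⟩, hsim⟩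
  · intro k hk
    refine ⟨hKF k hk, ?_⟩
    rw [(hs.cl_eq (hKF k hk) hs.eF).2 hk]
    exact he'
  · rintro S (rfl | rfl | rfl)
    · refine ⟨hs.refl e hs.eF, hL.sub fun x hx y hy => ?_⟩
      have h3 := hs.mul x e y e hx hy
      rwa [hL.Le] at h3
    · refine ⟨⟨hs.eF, he'⟩, hL.sub ?_⟩
      rintro x ⟨hx, hxM⟩ y ⟨hy, hyM⟩
      exact ⟨hs.LF x hx y hy, hM' _ hxM _ hyM⟩
    · exact ⟨hs.eF, hL.sub hs.LF⟩
  · have : Fact (Nat.Prime 2) := ⟨Nat.prime_two⟩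
    rw [hs.card_pre hL M', hm, hc', ← hval, h1, padicValNat.mul (by positivity) hSpos.ne',
      padicValNat.prime_pow, pow_add]
  · intro g hg hge k hk
    have h3 := (hs.inv_cong hL hg).1 k e hk
    rwa [hge] at h3

end ALoop
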