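import Pool.Agent.H71.TP.Basic

set_option autoImplicit false

/-!
# The 2-local subloop of a finite automorphic loop
-/

namespace ALoop

open Equiv

variable {Q : Type*} {G : Subgroup (Perm Q)} {L : Q → Perm Q} {J : Perm Q} {e : Q}

/-- the elements of `G` and `P` that are trivial on the orbit of `e` -/
def Bk (G P : Subgroup (Perm Q)) (e : Q) : Subgroup (Perm Q) where
  carrier := {b | b ∈ G ∧ b ∈ P ∧ ∀ p ∈ P, b (p e) = p e}
  one_mem' := ⟨G.one_mem, P.one_mem, fun _ _ => rfl⟩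
  mul_mem' := by
    rintro a b ⟨ha, ha', ha2⟩ ⟨hb, hb', hb2⟩
    refine ⟨G.mul_mem ha hb, P.mul_mem ha' hb', fun p hp => ?_⟩
    rw [Perm.mul_apply, hb2 p hp, ha2 p hp]
  inv_mem' := by
    rintro a ⟨ha, ha', ha2⟩
    refine ⟨G.inv_mem ha, P.inv_mem ha', fun p hp => ?_⟩
    rw [Perm.inv_eq_iff_eq, ha2 p hp]

theorem mem_Bk {P : Subgroup (Perm Q)} {b : Perm Q} :
    b ∈ Bk G P e ↔ b ∈ G ∧ b ∈ P ∧ ∀ p ∈ P, b (p e) = p e := Iff.rfl

/-- the fixed points of a group -/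
def Fx (B : Subgroup (Perm Q)) : Set Q := {x | ∀ b ∈ B, b x = x}

theorem mem_Fx {B : Subgroup (Perm Q)} {x : Q} : x ∈ Fx B ↔ ∀ b ∈ B, b x = x := Iff.rfl

theorem mem_norm {M : Type*} [Group M] {B : Subgroup M} {g : M} (h1 : ∀ b ∈ B, g * b * g⁻¹ ∈ B)
    (h2 : ∀ b ∈ B, g⁻¹ * b * g ∈ B) : g ∈ Subgroup.normalizer (B : Set M) := by
  rw [Subgroup.mem_normalizer_iff]
  refine fun x => ⟨fun hx => h1 x hx, fun hx => ?_⟩
  have h3 := h2 _ hx
  have h4 : g⁻¹ * (g * x * g⁻¹) * g = x := by group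
  rwa [h4] at h3

theorem norm_inv {M : Type*} [Group M] {B : Subgroup M} {g b : M}
    (hg : g ∈ Subgroup.normalizer (B : Set M)) (hb : b ∈ B) : g⁻¹ * b * g ∈ B := by
  rw [Subgroup.mem_normalizer_iff] at hg
  have h3 := (hg (g⁻¹ * b * g)).2
  have h4 : g * (g⁻¹ * b * g) * g⁻¹ = b := by group
  rw [h4] at h3
  exact h3 hb

theorem norm_Fx {B : Subgroup (Perm Q)} {g : Perm Q}
    (hg : g ∈ Subgroup.normalizer (B : Set (Perm Q))) {x : Q} (hx : x ∈ Fx B) : g x ∈ Fx B := by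
  intro b hb
  have h1 := hx _ (norm_inv hg hb)
  rw [Perm.mul_apply, Perm.mul_apply, Perm.inv_eq_iff_eq] at h1
  exact h1

namespace AL0

variable {P : Subgroup (Perm Q)}

theorem P_norm (h : AL0 G L J e) (hP : P ≤ h.H) :
    P ≤ Subgroup.normalizer ((Bk G P e : Subgroup (Perm Q)) : Set (Perm Q)) := by
  have key : ∀ p ∈ P, ∀ b ∈ Bk G P e, p * b * p⁻¹ ∈ Bk G P e := by
    rintro p hp b ⟨hb, hb', hb2⟩
    refine ⟨h.normG (hP hp) hb, P.mul_mem (P.mul_mem hp hb') (P.inv_mem hp), fun r hr => ?_⟩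
    have h1 := hb2 (p⁻¹ * r) (P.mul_mem (P.inv_mem hp) hr)
    rw [Perm.mul_apply] at h1
    rw [Perm.mul_apply, Perm.mul_apply, h1, apply_inv']
  intro p hp
  refine mem_norm (key p hp) (fun b hb => ?_)
  have h1 := key p⁻¹ (P.inv_mem hp) b hb
  rwa [inv_inv] at h1

theorem Bk_e (_h : AL0 G L J e) {b : Perm Q} (hb : b ∈ Bk G P e) : b e = e := hb.2.2 1 P.one_mem

theorem L_norm (h : AL0 G L J e) {x : Q} (hx : x ∈ Fx (Bk G P e)) :
    L x ∈ Subgroup.normalizer ((Bk G P e : Subgroup (Perm Q)) : Set (Perm Q)) := by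
  have key : ∀ b ∈ Bk G P e, b * L x = L x * b := fun b hb => h.comL hb.1 (h.Bk_e hb) (hx b hb)
  refine mem_norm (fun b hb => ?_) (fun b hb => ?_)
  · have h1 : L x * b * (L x)⁻¹ = b := by rw [← key b hb]; group
    rwa [h1]
  · have h1 : (L x)⁻¹ * b * L x = b := by rw [mul_assoc, key b hb]; group
    rwa [h1]

theorem e_Fx (h : AL0 G L J e) : e ∈ Fx (Bk G P e) := fun _ hb => h.Bk_e hb

/-- the orbit of `e` under the normaliser -/
theorem orbit_N (h : AL0 G L J e) :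
    MulAction.orbit (h.H ⊓ Subgroup.normalizer ((Bk G P e : Subgroup (Perm Q)) : Set (Perm Q)) :
      Subgroup (Perm Q)) e = Fx (Bk G P e) := by
  ext x
  constructor
  · rintro ⟨⟨g, hg⟩, rfl⟩
    exact norm_Fx hg.2 h.e_Fx
  · intro hx
    exact ⟨⟨L x, h.le_H (h.memL x), h.L_norm hx⟩, h.Le x⟩

/-- the fixed points are a subloop -/
theorem Fx_sub (h : AL0 G L J e) (hP : P ≤ h.H) (hJ : J ∈ P) {x y : Q} (hx : x ∈ Fx (Bk G P e))
    (hy : y ∈ Fx (Bk G P e)) : L x y ∈ Fx (Bk G P e) ∧ (L x)⁻¹ y ∈ Fx (Bk G P e) ∧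
      (J * L (J x) * J)⁻¹ y ∈ Fx (Bk G P e) := by
  have hJN := h.P_norm hP hJ
  have hLN := h.L_norm hx
  have hLN' := h.L_norm (norm_Fx hJN hx)
  refine ⟨norm_Fx hLN hy, norm_Fx (Subgroup.inv_mem _ hLN) hy,
    norm_Fx (Subgroup.inv_mem _ (Subgroup.mul_mem _ (Subgroup.mul_mem _ hJN hLN') hJN)) hy⟩

/-- the 2-part of the number of fixed points -/
theorem Fx_val [Finite Q] (h : AL0 G L J e) {S : Subgroup (Perm Q)}
    (hS : IsSyl (Inn h.H e) S) (hP : IsSyl h.H P) (hSP : S ≤ P) :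
    padicValNat 2 (Nat.card (Fx (Bk G P e))) = padicValNat 2 (Nat.card Q) := by
  have hPN := h.P_norm hP.1
  set N := (h.H ⊓ Subgroup.normalizer ((Bk G P e : Subgroup (Perm Q)) : Set (Perm Q)) :
      Subgroup (Perm Q)) with hN
  have h1 : IsSyl N P := hP.mono (le_inf hP.1 hPN) inf_le_left
  have h2 : IsSyl (Inn N e) S := by
    refine hS.mono ?_ ?_
    · exact le_inf (hSP.trans (le_inf hP.1 hPN)) (hS.1.trans inf_le_right)
    · exact inf_le_inf_right _ inf_le_left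
  have h3 := val_orbit h2 h1 hSP
  have h4 := val_orbit hS hP hSP
  rw [h.orbit_N] at h3
  rw [h3, ← h4]
  have h5 : MulAction.orbit h.H e = Set.univ := by
    rw [Set.eq_univ_iff_forall]
    exact fun x => ⟨⟨L x, h.le_H (h.memL x)⟩, h.Le x⟩
  rw [h5, Nat.card_univ]

/-- the relation on the fixed points -/
def Rl (L : Q → Perm Q) (J : Perm Q) (F : Set Q) (x y : Q) : Prop :=
  x ∈ F ∧ y ∈ F ∧ ∀ z ∈ F, D L J x z = D L J y z

theorem Rl_map (h : AL0 G L J e) {g : Perm Q} (hg : g ∈ h.H)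
    (hN : g ∈ Subgroup.normalizer ((Bk G P e : Subgroup (Perm Q)) : Set (Perm Q))) {x y : Q}
    (hxy : Rl L J (Fx (Bk G P e)) x y) : Rl L J (Fx (Bk G P e)) (g x) (g y) := by
  obtain ⟨hx, hy, hD⟩ := hxy
  refine ⟨norm_Fx hN hx, norm_Fx hN hy, fun z hz => ?_⟩
  have h1 := norm_Fx (Subgroup.inv_mem _ hN) hz
  rw [← h.D_conj hg, ← h.D_conj hg]
  simp only [Perm.mul_apply]
  rw [hD _ h1]

theorem Rl_mul (h : AL0 G L J e) (hP : P ≤ h.H) (hJ : J ∈ P) {a b c d : Q}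
    (hab : Rl L J (Fx (Bk G P e)) a b) (hcd : Rl L J (Fx (Bk G P e)) c d) :
    Rl L J (Fx (Bk G P e)) (L a c) (L b d) := by
  have hJN := h.P_norm hP hJ
  have h1 := h.Rl_map (h.le_H (h.memL a)) (h.L_norm hab.1) hcd
  have h2 := h.Rl_map (h.le_H (h.JG _ (h.memL (J d))))
    (Subgroup.mul_mem _ (Subgroup.mul_mem _ hJN (h.L_norm (norm_Fx hJN hcd.2.1))) hJN) hab
  rw [h.R_apply, h.R_apply] at h2
  exact ⟨h1.1, h2.2.1, fun z hz => (h1.2.2 z hz).trans (h2.2.2 z hz)⟩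

/-- elements related to `e` -/
theorem Rl_e (h : AL0 G L J e) (hP : P ≤ h.H) (hJ : J ∈ P) {k : Q}
    (hk : Rl L J (Fx (Bk G P e)) k e) :
    J k = k ∧ L k k = e ∧ ∀ y ∈ Fx (Bk G P e), L k y = L y k := by
  have hJN := h.P_norm hP hJ
  have key : ∀ u ∈ Fx (Bk G P e), L k (J u) = L (J u) (J k) := by
    intro u hu
    have h1 := hk.2.2 (L k u) (norm_Fx (h.L_norm hk.1) hu)
    rw [h.D_e, h.aaip] at h1
    unfold D at h1
    rw [Perm.mul_apply, Perm.mul_apply, inv_apply'] at h1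
    exact h1
  have h2 := key e h.e_Fx
  rw [h.Je, h.Le, h.Le1, Perm.one_apply] at h2
  refine ⟨h2.symm, ?_, fun y hy => ?_⟩
  · have h3 := h.LJ k
    rwa [← h2] at h3
  · have h3 := key (J y) (norm_Fx hJN hy)
    rwa [h.JJ, ← h2] at h3

/-- the element `c e` is related to `e` -/
theorem exists_a [Finite Q] (h : AL0 G L J e) {S : Subgroup (Perm Q)}
    (hS : IsSyl (Inn h.H e) S) (hP : IsSyl h.H P) (hSP : S ≤ P) (hJS : J ∈ S)
    (heven : 2 ∣ Nat.card Q) :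
    ∃ a, a ≠ e ∧ Rl L J (Fx (Bk G P e)) a e ∧ ∀ s ∈ S, s a = a := by
  have hJP := hSP hJS
  have hne : ∃ p ∈ P, p e ≠ e := by
    by_contra hcon
    push Not at hcon
    have h1 : P ≤ Inn h.H e := fun p hp => mem_Inn.2 ⟨hP.1 hp, hcon p hp⟩
    have h2 := Subgroup.relIndex_mul_relIndex P (Inn h.H e) h.H h1 inf_le_left
    have h5 : MulAction.orbit h.H e = Set.univ := by
      rw [Set.eq_univ_iff_forall]
      exact fun x => ⟨⟨L x, h.le_H (h.memL x)⟩, h.Le x⟩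
    rw [relIndex_Inn, h5, Nat.card_univ] at h2
    apply hP.2.2
    rw [← h2]
    exact dvd_mul_of_dvd_right heven _
  obtain ⟨c, hcP, hce, hcom⟩ := exists_central hP.2.1 hne
  have hFe : ∀ p ∈ P, p e ∈ Fx (Bk G P e) := fun p hp b hb => hb.2.2 p hp
  refine ⟨c e, hce, ⟨hFe c hcP, h.e_Fx, fun z hz => ?_⟩, fun s hs => ?_⟩
  · have hw : c * J * c⁻¹ * J ∈ Bk G P e := by
      refine ⟨h.commJ (hP.1 hcP),
        P.mul_mem (P.mul_mem (P.mul_mem hcP hJP) (P.inv_mem hcP)) hJP, fun p hp => ?_⟩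
      have h1 := hcom J hJP (c⁻¹ * (J * p)) (P.mul_mem (P.inv_mem hcP) (P.mul_mem hJP hp))
      simp only [Perm.mul_apply, apply_inv'] at h1 ⊢
      rw [h1, h.JJ]
    have hJN := h.P_norm hP.1 hJP
    have h1 := (norm_Fx hJN hz) _ hw
    rw [← h.conjH (hP.1 hcP), h.D_e]
    rw [Perm.mul_apply _ J, h.JJ] at h1
    exact h1
  · have h1 := hcom s (hSP hs) 1 P.one_mem
    have h2 : s e = e := (hS.1 hs).2
    rw [Perm.one_apply, h2] at h1
    exact h1.symm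

/-- the orbit of `a` under the stabiliser of `e` has odd length -/
theorem odd_orbit [Finite Q] (h : AL0 G L J e) {S : Subgroup (Perm Q)}
    (hS : IsSyl (Inn h.H e) S) {a : Q} (ha : ∀ s ∈ S, s a = a) (hJ : J a = a) :
    ¬ 2 ∣ Nat.card {b // ∃ g ∈ G, g e = e ∧ g a = b} := by
  have h1 : S ≤ Inn (Inn h.H e) a := fun s hs => mem_Inn.2 ⟨hS.1 hs, ha s hs⟩
  have h2 := Subgroup.relIndex_mul_relIndex S (Inn (Inn h.H e) a) (Inn h.H e) h1 inf_le_left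
  rw [relIndex_Inn] at h2
  have h3 : Nat.card {b // ∃ g ∈ G, g e = e ∧ g a = b} =
      Nat.card (MulAction.orbit (Inn h.H e) a) := by
    refine Nat.card_congr (Equiv.subtypeEquivRight fun b => ?_)
    constructor
    · rintro ⟨g, hg, hge, rfl⟩
      exact ⟨⟨g, mem_Inn.2 ⟨h.le_H hg, hge⟩⟩, rfl⟩
    · rintro ⟨⟨g, hg⟩, rfl⟩
      obtain ⟨hg1, hg2⟩ := mem_Inn.1 hg
      rcases hg1 with hg1 | hg1
      · exact ⟨g, hg1, hg2, rfl⟩
      · refine ⟨g * J, hg1, ?_, ?_⟩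
        · rw [Perm.mul_apply, h.Je, hg2]
        · rw [Perm.mul_apply, hJ]; rfl
  rw [h3]
  intro h4
  apply hS.2.2
  rw [← h2]
  exact dvd_mul_of_dvd_right h4 _

/-- summary -/
theorem main [Finite Q] (h : AL0 G L J e) (heven : 2 ∣ Nat.card Q) :
    ∃ F : Set Q, e ∈ F ∧
      (∀ x ∈ F, ∀ y ∈ F, L x y ∈ F ∧ (L x)⁻¹ y ∈ F ∧ (J * L (J x) * J)⁻¹ y ∈ F) ∧
      padicValNat 2 (Nat.card F) = padicValNat 2 (Nat.card Q) ∧
      (∀ a b c d, Rl L J F a b → Rl L J F c d → Rl L J F (L a c) (L b d)) ∧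
      (∀ k, Rl L J F k e → L k k = e ∧ ∀ y ∈ F, L k y = L y k) ∧
      ∃ a, a ≠ e ∧ Rl L J F a e ∧ Odd (Nat.card {b // ∃ g ∈ G, g e = e ∧ g a = b}) := by
  obtain ⟨S, hS⟩ := exists_syl (Inn h.H e)
  obtain ⟨P, hP, hSP⟩ := exists_syl_ge hS.2.1 (hS.1.trans inf_le_left : S ≤ h.H)
  have hJS : J ∈ S := by
    refine hS.mem_of_comm (mem_Inn.2 ⟨h.J_mem, h.Je⟩) (fun s hs => ?_) (n := 1) ?_
    · exact h.comJH (hS.1 hs).1 (hS.1 hs).2
    · rw [pow_one, pow_two, h.JJ1]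
  obtain ⟨a, hae, har, haS⟩ := h.exists_a hS hP hSP hJS heven
  have hJP := hSP hJS
  refine ⟨Fx (Bk G P e), h.e_Fx, fun x hx y hy => h.Fx_sub hP.1 hJP hx hy,
    h.Fx_val hS hP hSP, fun a b c d h1 h2 => h.Rl_mul hP.1 hJP h1 h2,
    fun k hk => (h.Rl_e hP.1 hJP hk).2, a, hae, har, ?_⟩
  have h1 := h.odd_orbit hS haS (h.Rl_e hP.1 hJP har).1
  rw [← even_iff_two_dvd, Nat.not_even_iff_odd] at h1
  exact h1

end AL0

end ALoop
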