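import Pool.Agent.H71.TP.Local
import Pool.Agent.H71.TP.Ter

set_option autoImplicit false

/-!
# Automorphic loops given by left and right translations
-/

namespace ALoop

open Equiv

variable {Q : Type*}

/-- an automorphic loop given by its left and right translations -/
structure Lp (L R : Q → Perm Q) (e : Q) : Prop where
  LR : ∀ x y, L x y = R y x
  eL : ∀ x, L e x = x
  Le : ∀ x, L x e = x
  aut : ∀ g ∈ Subgroup.closure (Set.range L ∪ Set.range R), g e = e →
    ∀ x y, g (L x y) = L (g x) (g y)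

theorem inv_mem_of_mem [Finite Q] {g : Perm Q} {M : Set Q} (h : ∀ x ∈ M, g x ∈ M) {x : Q}
    (hx : x ∈ M) : g⁻¹ x ∈ M := by
  have h1 : Function.Injective (fun y : M => (⟨g y, h y y.2⟩ : M)) := by
    intro a b hab
    exact Subtype.ext (g.injective (congrArg Subtype.val hab))
  obtain ⟨⟨y, hy⟩, hyx⟩ := Finite.surjective_of_injective h1 ⟨x, hx⟩
  have h2 : g y = x := congrArg Subtype.val hyx
  rw [← h2, inv_apply']
  exact hy

theorem Lp.al0 {L R : Q → Perm Q} {e : Q} (h : Lp L R e) :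
    ∃ J : Perm Q, AL0 (Subgroup.closure (Set.range L ∪ Set.range R)) L J e ∧
      ∀ x, J * L (J x) * J = R x := by
  obtain ⟨hLR, heL, hLe, haut⟩ := h
  set G := Subgroup.closure (Set.range L ∪ Set.range R) with hG
  have he : ∀ x, L e x = x ∧ L x e = x := fun x => ⟨heL x, hLe x⟩
  have memL : ∀ x, L x ∈ G := fun x => Subgroup.subset_closure (Or.inl ⟨x, rfl⟩)
  have memR : ∀ x, R x ∈ G := fun x => Subgroup.subset_closure (Or.inr ⟨x, rfl⟩)
  have Re : ∀ x, R x e = x := fun x => by rw [← hLR]; exact (he x).1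
  have equi : ∀ g ∈ G, g e = e → ∀ x, g * L x * g⁻¹ = L (g x) := by
    intro g hg hge x
    rw [mul_inv_eq_iff_eq_mul]
    ext y
    exact haut g hg hge x y
  -- flexible law
  have flex : ∀ x y, L x (L y x) = L (L x y) x := by
    intro x y
    have h1 : (R x)⁻¹ * L x ∈ G := G.mul_mem (G.inv_mem (memR x)) (memL x)
    have h2 : ((R x)⁻¹ * L x) e = e := by
      rw [Perm.mul_apply, (he x).2, Perm.inv_eq_iff_eq, Re]
    have h3 : ((R x)⁻¹ * L x) x = x := by
      rw [Perm.mul_apply, Perm.inv_eq_iff_eq]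
      exact hLR x x
    have h4 := equi _ h1 h2 x
    rw [h3, mul_inv_eq_iff_eq_mul] at h4
    have h5 : (R x)⁻¹ * L x = L x * (R x)⁻¹ := by
      have : (R x)⁻¹ * L x * L x = L x * (R x)⁻¹ * L x := by rw [h4]; group
      exact mul_right_cancel this
    have h6 : L x * R x = R x * L x := by
      calc L x * R x = R x * ((R x)⁻¹ * L x) * R x := by group
        _ = R x * L x := by rw [h5]; group
    have h7 := congrArg (fun p : Perm Q => p y) h6
    simp only [Perm.mul_apply] at h7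
    rw [← hLR, ← hLR] at h7
    exact h7
  have linv : ∀ x, L ((L x)⁻¹ e) x = e := by
    intro x
    apply (L x).injective
    rw [flex, apply_inv', (he x).1, (he x).2]
  let J0 : Q → Q := fun x => (L x)⁻¹ e
  have hJ0 : Function.Involutive J0 := by
    intro x
    change (L ((L x)⁻¹ e))⁻¹ e = x
    rw [Perm.inv_eq_iff_eq, linv]
  let J : Perm Q := Function.Involutive.toPerm J0 hJ0
  have hJ : ∀ x, J x = (L x)⁻¹ e := fun x => rfl
  have hJJ : ∀ x, J (J x) = x := fun x => hJ0 x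
  have hLJ : ∀ x, L x (J x) = e := fun x => by rw [hJ, apply_inv']
  have hJe : J e = e := by rw [hJ, Perm.inv_eq_iff_eq, (he e).1]
  have comJ : ∀ g ∈ G, g e = e → ∀ x, g (J x) = J (g x) := by
    intro g hg hge x
    have h1 := haut g hg hge x (J x)
    rw [hLJ, hge] at h1
    rw [hJ (g x), ← Perm.inv_eq_iff_eq.2 h1]
  have aaip : ∀ c p, J (L c p) = L (J p) (J c) := by
    intro c p
    set x := L c p with hx
    set y := (L x)⁻¹ c with hy
    have hxy : L x y = c := by rw [hy, apply_inv']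
    clear_value y
    have hφG : (L c)⁻¹ * (L x * L y) ∈ G :=
      G.mul_mem (G.inv_mem (memL c)) (G.mul_mem (memL x) (memL y))
    have hφ : ∀ z, ((L c)⁻¹ * (L x * L y)) z = (L c)⁻¹ (L x (L y z)) := fun z => rfl
    set φ := (L c)⁻¹ * (L x * L y)
    have hφe : φ e = e := by
      rw [hφ, (he y).2, hxy, Perm.inv_eq_iff_eq, (he c).2]
    have hφx : φ x = x := by
      rw [hφ, flex, hxy, inv_apply']
    have hφJy : φ (J y) = p := by
      rw [hφ, hLJ, (he x).2, Perm.inv_eq_iff_eq]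
    have hφy : φ y = J p := by
      rw [← hφJy, comJ φ hφG hφe, hJJ]
    have hφw : φ ((L y)⁻¹ (J x)) = J c := by
      rw [hφ, apply_inv', hLJ, hJ c]
    have h1 := haut φ hφG hφe y ((L y)⁻¹ (J x))
    rw [apply_inv', hφy, hφw, comJ φ hφG hφe, hφx] at h1
    exact h1
  have JLJ : ∀ x, J * L x * J = R (J x) := by
    intro x
    ext z
    rw [Perm.mul_apply, Perm.mul_apply, aaip, hJJ, hLR]
  have JRJ : ∀ x, J * R x * J = L (J x) := by
    intro x
    ext z
    rw [Perm.mul_apply, Perm.mul_apply, ← hLR, aaip, hJJ]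
  have hJ1 : J * J = 1 := by
    ext x; exact hJJ x
  have JG : ∀ g ∈ G, J * g * J ∈ G := by
    intro g hg
    rw [hG] at hg
    induction hg using Subgroup.closure_induction with
    | mem x hx =>
      rcases hx with ⟨y, rfl⟩ | ⟨y, rfl⟩
      · rw [JLJ]; exact memR _
      · rw [JRJ]; exact memL _
    | one => rw [mul_one, hJ1]; exact G.one_mem
    | mul x y _ _ hx hy =>
      have : J * (x * y) * J = (J * x * J) * (J * y * J) := by
        calc J * (x * y) * J = J * x * 1 * y * J := by group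
          _ = (J * x * J) * (J * y * J) := by rw [← hJ1]; group
      rw [this]; exact G.mul_mem hx hy
    | inv x _ hx =>
      have hJi : J⁻¹ = J := inv_eq_of_mul_eq_one_left hJ1
      have : J * x⁻¹ * J = (J * x * J)⁻¹ := by
        rw [mul_inv_rev, mul_inv_rev, hJi]; group
      rw [this]; exact G.inv_mem hx
  refine ⟨J, ⟨memL, fun x => (he x).2, hJe, hJJ, hLJ, aaip, equi, ?_, JG⟩, fun x => ?_⟩
  · intro g hg hge
    ext x
    exact comJ g hg hge x
  · rw [JLJ, hJJ]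

/-- a subloop `F` of a loop together with a congruence `r` of `F` -/
structure Sec (L R : Q → Perm Q) (e : Q) (F : Set Q) (r : Q → Q → Prop) : Prop where
  eF : e ∈ F
  LF : ∀ x ∈ F, ∀ y ∈ F, L x y ∈ F
  rF : ∀ x y, r x y → x ∈ F ∧ y ∈ F
  refl : ∀ x ∈ F, r x x
  symm : ∀ x y, r x y → r y x
  trans : ∀ x y z, r x y → r y z → r x z
  mul : ∀ a b c d, r a b → r c d → r (L a c) (L b d)

namespace Sec

variable {L R : Q → Perm Q} {e : Q} {F : Set Q} {r : Q → Q → Prop}

/-- the congruence as a setoid -/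
def st (h : Sec L R e F r) : Setoid F where
  r x y := r x y
  iseqv := ⟨fun x => h.refl x x.2, fun {x y} hh => h.symm x y hh,
    fun {x y z} hh hk => h.trans x y z hh hk⟩

/-- the quotient of `F` by the congruence -/
abbrev S (h : Sec L R e F r) : Type _ := Quotient h.st

/-- the class of an element of `F` -/
def cl (h : Sec L R e F r) (x : Q) (hx : x ∈ F) : h.S := Quotient.mk h.st ⟨x, hx⟩

theorem cl_eq (h : Sec L R e F r) {x y : Q} (hx : x ∈ F) (hy : y ∈ F) :
    h.cl x hx = h.cl y hy ↔ r x y := by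
  constructor
  · intro hh
    exact Quotient.exact (s := h.st) hh
  · intro hh
    exact Quotient.sound (s := h.st) hh

/-- the product of the quotient -/
def mul' (h : Sec L R e F r) : h.S → h.S → h.S :=
  Quotient.map₂ (fun x y => ⟨L x y, h.LF x x.2 y y.2⟩)
    (fun a b hab c d hcd => h.mul a b c d hab hcd)

theorem mul'_cl (h : Sec L R e F r) {x y : Q} (hx : x ∈ F) (hy : y ∈ F) :
    h.mul' (h.cl x hx) (h.cl y hy) = h.cl (L x y) (h.LF x hx y hy) := rfl

theorem ex_cl (h : Sec L R e F r) (s : h.S) : ∃ x, ∃ hx : x ∈ F, s = h.cl x hx := by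
  obtain ⟨⟨x, hx⟩, hh⟩ := Quotient.exists_rep s
  exact ⟨x, hx, hh.symm⟩

theorem RF (h : Sec L R e F r) (hL : Lp L R e) {x y : Q} (hx : x ∈ F) (hy : y ∈ F) :
    R x y ∈ F := by
  rw [← hL.LR]; exact h.LF y hy x hx

theorem surjL [Finite Q] (h : Sec L R e F r) (s : h.S) : Function.Bijective (h.mul' s) := by
  rw [← Finite.surjective_iff_bijective]
  intro t
  obtain ⟨x, hx, rfl⟩ := h.ex_cl s
  obtain ⟨y, hy, rfl⟩ := h.ex_cl t
  have h1 : (L x)⁻¹ y ∈ F := inv_mem_of_mem (h.LF x hx) hy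
  refine ⟨h.cl _ h1, ?_⟩
  rw [mul'_cl, cl_eq, apply_inv']
  exact h.refl y hy

theorem surjR [Finite Q] (h : Sec L R e F r) (hL : Lp L R e) (s : h.S) :
    Function.Bijective (fun t => h.mul' t s) := by
  rw [← Finite.surjective_iff_bijective]
  intro t
  obtain ⟨x, hx, rfl⟩ := h.ex_cl s
  obtain ⟨y, hy, rfl⟩ := h.ex_cl t
  have h1 : (R x)⁻¹ y ∈ F := inv_mem_of_mem (fun z hz => h.RF hL hx hz) hy
  refine ⟨h.cl _ h1, ?_⟩
  beta_reduce
  rw [mul'_cl, cl_eq, hL.LR, apply_inv']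
  exact h.refl y hy

/-- left translations of the quotient -/
noncomputable def L' [Finite Q] (h : Sec L R e F r) (s : h.S) : Perm h.S :=
  Equiv.ofBijective _ (h.surjL s)

/-- right translations of the quotient -/
noncomputable def R' [Finite Q] (h : Sec L R e F r) (hL : Lp L R e) (s : h.S) : Perm h.S :=
  Equiv.ofBijective _ (h.surjR hL s)

theorem L'_cl [Finite Q] (h : Sec L R e F r) {x y : Q} (hx : x ∈ F) (hy : y ∈ F) :
    h.L' (h.cl x hx) (h.cl y hy) = h.cl (L x y) (h.LF x hx y hy) := rfl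

theorem R'_cl [Finite Q] (h : Sec L R e F r) (hL : Lp L R e) {x y : Q} (hx : x ∈ F)
    (hy : y ∈ F) : h.R' hL (h.cl x hx) (h.cl y hy) = h.cl (L y x) (h.LF y hy x hx) := rfl

/-- every element of the multiplication group of the quotient is induced -/
theorem lift [Finite Q] (h : Sec L R e F r) (hL : Lp L R e) {g' : Perm h.S}
    (hg' : g' ∈ Subgroup.closure (Set.range h.L' ∪ Set.range (h.R' hL))) :
    ∃ g ∈ Subgroup.closure (Set.range L ∪ Set.range R), ∃ hg : ∀ x ∈ F, g x ∈ F,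
      ∀ x (hx : x ∈ F), g' (h.cl x hx) = h.cl (g x) (hg x hx) := by
  induction hg' using Subgroup.closure_induction with
  | mem g' hg' =>
    rcases hg' with ⟨s, rfl⟩ | ⟨s, rfl⟩
    · obtain ⟨x, hx, rfl⟩ := h.ex_cl s
      exact ⟨L x, Subgroup.subset_closure (Or.inl ⟨x, rfl⟩), h.LF x hx, fun y hy => rfl⟩
    · obtain ⟨x, hx, rfl⟩ := h.ex_cl s
      refine ⟨R x, Subgroup.subset_closure (Or.inr ⟨x, rfl⟩), fun y hy => h.RF hL hx hy,
        fun y hy => ?_⟩
      rw [R'_cl, cl_eq, hL.LR]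
      exact h.refl _ (h.RF hL hx hy)
  | one => exact ⟨1, Subgroup.one_mem _, fun x hx => hx, fun x hx => rfl⟩
  | mul g1 g2 _ _ h1 h2 =>
    obtain ⟨k1, hk1, hF1, hc1⟩ := h1
    obtain ⟨k2, hk2, hF2, hc2⟩ := h2
    refine ⟨k1 * k2, Subgroup.mul_mem _ hk1 hk2, fun x hx => hF1 _ (hF2 _ hx), fun x hx => ?_⟩
    rw [Perm.mul_apply, hc2 x hx, hc1]
    rfl
  | inv g1 _ h1 =>
    obtain ⟨k1, hk1, hF1, hc1⟩ := h1
    refine ⟨k1⁻¹, Subgroup.inv_mem _ hk1, fun x hx => inv_mem_of_mem hF1 hx, fun x hx => ?_⟩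
    rw [Perm.inv_eq_iff_eq, hc1, cl_eq, apply_inv']
    exact h.refl x hx

/-- the quotient is an automorphic loop -/
theorem lp [Finite Q] (h : Sec L R e F r) (hL : Lp L R e) :
    Lp h.L' (h.R' hL) (h.cl e h.eF) := by
  have hA : ∀ s, h.L' (h.cl e h.eF) s = s := by
    intro s
    obtain ⟨x, hx, rfl⟩ := h.ex_cl s
    rw [L'_cl, cl_eq, hL.eL]
    exact h.refl x hx
  refine ⟨fun s t => rfl, hA, ?_, ?_⟩
  · intro s
    obtain ⟨x, hx, rfl⟩ := h.ex_cl s
    rw [L'_cl, cl_eq, hL.Le]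
    exact h.refl x hx
  · intro g' hg' hge s t
    obtain ⟨g, hg, hF, hc⟩ := h.lift hL hg'
    obtain ⟨x, hx, rfl⟩ := h.ex_cl s
    obtain ⟨y, hy, rfl⟩ := h.ex_cl t
    have haF : g e ∈ F := hF e h.eF
    have hk : (L (g e))⁻¹ * g ∈ Subgroup.closure (Set.range L ∪ Set.range R) :=
      Subgroup.mul_mem _ (Subgroup.inv_mem _ (Subgroup.subset_closure (Or.inl ⟨g e, rfl⟩))) hg
    have hke : ((L (g e))⁻¹ * g) e = e := by
      rw [Perm.mul_apply, Perm.inv_eq_iff_eq, hL.Le]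
    set k := (L (g e))⁻¹ * g with hkdef
    have hkF : ∀ x ∈ F, k x ∈ F := fun x hx => inv_mem_of_mem (h.LF _ haF) (hF x hx)
    have hkc : ∀ x (hx : x ∈ F), g' (h.cl x hx) = h.cl (k x) (hkF x hx) := by
      intro x hx
      have h1 : h.L' (h.cl (g e) haF) (h.cl (k x) (hkF x hx)) = h.cl (g x) (hF x hx) := by
        rw [L'_cl, cl_eq, hkdef, Perm.mul_apply, apply_inv']
        exact h.refl _ (hF x hx)
      rw [hc e h.eF] at hge
      rw [hge, hA] at h1
      rw [h1, hc]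
    rw [L'_cl, hkc, hkc x hx, hkc y hy, L'_cl, cl_eq, hL.aut k hk hke]
    exact h.refl _ (h.LF _ (hkF x hx) _ (hkF y hy))

/-- preimages of subsets of the quotient -/
theorem card_pre [Finite Q] (h : Sec L R e F r) (hL : Lp L R e) (M : Set h.S) :
    Nat.card {x | ∃ hx : x ∈ F, h.cl x hx ∈ M} = Nat.card {k | r k e} * Nat.card M := by
  choose f hf hfc using h.ex_cl
  rw [← Nat.card_prod]
  symm
  have hkF : ∀ k, r k e → k ∈ F := fun k hk => (h.rF k e hk).1
  have hcl : ∀ s k (hk : r k e), h.cl (L (f s) k) (h.LF _ (hf s) _ (hkF k hk)) = s := by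
    intro s k hk
    rw [← h.L'_cl (hf s) (hkF k hk)]
    rw [(h.cl_eq (hkF k hk) h.eF).2 hk]
    conv_rhs => rw [hfc s]
    rw [L'_cl, cl_eq, hL.Le]
    exact h.refl _ (hf s)
  let φ : {k | r k e} × M → {x | ∃ hx : x ∈ F, h.cl x hx ∈ M} := fun p =>
    ⟨L (f p.2) p.1, h.LF _ (hf _) _ (hkF _ p.1.2), by rw [hcl _ _ p.1.2]; exact p.2.2⟩
  refine Nat.card_eq_of_bijective φ ⟨?_, ?_⟩
  · rintro ⟨⟨k, hk⟩, ⟨s, hs⟩⟩ ⟨⟨k', hk'⟩, ⟨s', hs'⟩⟩ hh
    have h1 : L (f s) k = L (f s') k' := congrArg Subtype.val hh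
    have h2 : s = s' := by
      rw [← hcl s k hk, ← hcl s' k' hk']
      rw [cl_eq, h1]
      exact h.refl _ (h.LF _ (hf s') _ (hkF k' hk'))
    subst h2
    have h3 : k = k' := (L (f s)).injective h1
    subst h3
    rfl
  · rintro ⟨x, hx, hxM⟩
    have h1 : (L (f (h.cl x hx)))⁻¹ x ∈ F := inv_mem_of_mem (h.LF _ (hf _)) hx
    have h2 : r ((L (f (h.cl x hx)))⁻¹ x) e := by
      rw [← h.cl_eq h1 h.eF]
      apply (h.L' (h.cl x hx)).injective
      have h3 : h.L' (h.cl x hx) (h.cl _ h1) = h.L' (h.cl (f (h.cl x hx)) (hf _)) (h.cl _ h1) := by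
        rw [← hfc (h.cl x hx)]
      rw [h3, L'_cl, L'_cl, cl_eq, apply_inv', hL.Le]
      exact h.refl x hx
    refine ⟨⟨⟨_, h2⟩, ⟨h.cl x hx, hxM⟩⟩, ?_⟩
    apply Subtype.ext
    exact apply_inv' _ _

end Sec

end ALoop
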