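import Pool.Agent.H71.TP.Lp

set_option autoImplicit false

/-!
# Sylow 2-subloops of finite automorphic loops
-/

namespace ALoop

open Equiv

universe u

variable {Q : Type u}

/-- the translation from `p` to `q` -/
def Et (L : Q → Perm Q) (p q : Q) : Perm Q := L p * L ((L p)⁻¹ q) * (L p)⁻¹

namespace Lp

variable {L R : Q → Perm Q} {e : Q}

theorem memL (hL : Lp L R e) (x : Q) : L x ∈ Subgroup.closure (Set.range L ∪ Set.range R) := by
  have := hL.LR
  exact Subgroup.subset_closure (Or.inl ⟨x, rfl⟩)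

theorem L_one (hL : Lp L R e) : L e = 1 := by
  ext x; exact hL.eL x

theorem inv_self (hL : Lp L R e) (p : Q) : (L p)⁻¹ p = e := by
  rw [Perm.inv_eq_iff_eq, hL.Le]

theorem Et_mem (hL : Lp L R e) (p q : Q) :
    Et L p q ∈ Subgroup.closure (Set.range L ∪ Set.range R) :=
  Subgroup.mul_mem _ (Subgroup.mul_mem _ (hL.memL _) (hL.memL _)) (Subgroup.inv_mem _ (hL.memL _))

theorem Et_conj (hL : Lp L R e) {g : Perm Q}
    (hg : g ∈ Subgroup.closure (Set.range L ∪ Set.range R)) (p q : Q) :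
    g * Et L p q * g⁻¹ = Et L (g p) (g q) := by
  have hη : (L (g p))⁻¹ * (g * L p) ∈ Subgroup.closure (Set.range L ∪ Set.range R) :=
    Subgroup.mul_mem _ (Subgroup.inv_mem _ (hL.memL _)) (Subgroup.mul_mem _ hg (hL.memL _))
  have hηe : ((L (g p))⁻¹ * (g * L p)) e = e := by
    rw [Perm.mul_apply, Perm.mul_apply, hL.Le, hL.inv_self]
  have h1 : ((L (g p))⁻¹ * (g * L p)) ((L p)⁻¹ q) = (L (g p))⁻¹ (g q) := by
    rw [Perm.mul_apply, Perm.mul_apply, apply_inv']
  have h2 : ((L (g p))⁻¹ * (g * L p)) * L ((L p)⁻¹ q) * ((L (g p))⁻¹ * (g * L p))⁻¹ =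
      L ((L (g p))⁻¹ (g q)) := by
    rw [mul_inv_eq_iff_eq_mul, ← h1]
    ext y
    exact hL.aut _ hη hηe _ y
  unfold Et
  rw [← h2]; group

theorem Et_left (hL : Lp L R e) (p q : Q) : Et L p q p = q := by
  unfold Et
  rw [Perm.mul_apply, Perm.mul_apply, hL.inv_self, hL.Le, apply_inv']

theorem Et_self (hL : Lp L R e) (p : Q) : Et L p p = 1 := by
  unfold Et
  rw [hL.inv_self, hL.L_one]; group

end Lp

namespace Sec

variable {L R : Q → Perm Q} {e : Q} {F : Set Q} {r : Q → Q → Prop}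

/-- the class of `e` has order a power of two if it is commutative of exponent two -/
theorem card_K [Finite Q] (h : Sec L R e F r) (hL : Lp L R e)
    (hK : ∀ k, r k e → L k k = e ∧ ∀ y ∈ F, L k y = L y k) :
    ∃ n, Nat.card {k | r k e} = 2 ^ n := by
  set K : Set Q := {k | r k e} with hKdef
  have hKF : ∀ k ∈ K, k ∈ F := fun k hk => (h.rF k e hk).1
  have eK : e ∈ K := h.refl e h.eF
  have mulK : ∀ k ∈ K, ∀ l ∈ K, L k l ∈ K := by
    intro k hk l hl
    have h1 := h.mul k e l e hk hl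
    rwa [hL.Le] at h1
  have invK : ∀ k ∈ K, ∀ l ∈ K, (L k)⁻¹ l ∈ K := fun k hk l hl => inv_mem_of_mem (mulK k hk) hl
  have EK : ∀ p ∈ K, ∀ q ∈ K, ∀ s ∈ K, Et L p q s ∈ K := by
    intro p hp q hq s hs
    exact mulK _ hp _ (mulK _ (invK p hp q hq) _ (invK p hp s hs))
  have Eright : ∀ p ∈ K, ∀ q ∈ K, Et L p q q = p := by
    intro p hp q hq
    unfold Et
    rw [Perm.mul_apply, Perm.mul_apply, (hK _ (invK p hp q hq)).1, hL.Le]
  have Esymm : ∀ p ∈ K, ∀ q ∈ K, Et L q p = Et L p q := by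
    intro p hp q hq
    have h1 := hL.Et_conj (hL.Et_mem p q) p q
    rw [hL.Et_left, Eright p hp q hq] at h1
    rw [← h1]; group
  have Ecomm : ∀ p ∈ K, ∀ q ∈ K, ∀ s ∈ K, Et L p q s = Et L p s q := by
    intro p hp q hq s hs
    unfold Et
    rw [Perm.mul_apply, Perm.mul_apply, Perm.mul_apply, Perm.mul_apply,
      (hK _ (invK p hp q hq)).2 _ (hKF _ (invK p hp s hs))]
  let T : K → K → K → K := fun a b c => ⟨Et L a b c, EK a a.2 b b.2 c c.2⟩
  have hT : TS T := by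
    refine ⟨fun a b c => ?_, fun a b c => ?_, fun a b => ?_, fun a b c d hh => ?_,
      fun a b c => ?_, fun a b x y z => ?_⟩
    · apply Subtype.ext
      change Et L a b c = Et L b a c
      rw [Esymm a a.2 b b.2]
    · apply Subtype.ext
      exact Ecomm a a.2 b b.2 c c.2
    · apply Subtype.ext
      change Et L a a b = b
      rw [hL.Et_self]; rfl
    · apply Subtype.ext
      exact (Et L a b).injective (congrArg Subtype.val hh)
    · have h1 : (Et L a b)⁻¹ c ∈ K := inv_mem_of_mem (EK a a.2 b b.2) c.2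
      refine ⟨⟨_, h1⟩, ?_⟩
      apply Subtype.ext
      exact apply_inv' _ _
    · apply Subtype.ext
      change Et L a b (Et L x y z) = Et L (Et L a b x) (Et L a b y) (Et L a b z)
      have h1 := hL.Et_conj (hL.Et_mem a b) x y
      rw [← h1]
      simp only [Perm.mul_apply, inv_apply']
  have : Nonempty K := ⟨⟨e, eK⟩⟩
  exact hT.card

end Sec

namespace Lp

variable {L R : Q → Perm Q} {e : Q}

/-- the 2-local subloop -/
theorem two_local [Finite Q] (hL : Lp L R e) (heven : 2 ∣ Nat.card Q) :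
    ∃ (F : Set Q) (r : Q → Q → Prop), Sec L R e F r ∧
      padicValNat 2 (Nat.card F) = padicValNat 2 (Nat.card Q) ∧
      (∀ k, r k e → L k k = e ∧ ∀ y ∈ F, L k y = L y k) ∧
      (∃ a, a ≠ e ∧ r a e ∧ Odd (Nat.card
        {b // ∃ g ∈ Subgroup.closure (Set.range L ∪ Set.range R), g e = e ∧ g a = b})) ∧
      ((∀ c : Q → Q → Prop, Equivalence c → (∀ x y z w, c x y → c z w → c (L x z) (L y w)) →
        (∀ x y, c x y → x = y) ∨ (∀ x y, c x y)) → (∃ x, L x x ≠ e) → F ≠ Set.univ) := by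
  obtain ⟨J, hJ, hR⟩ := hL.al0
  obtain ⟨F, heF, hF, hval, hmul, hk, a, hae, har, hodd⟩ := hJ.main heven
  refine ⟨F, AL0.Rl L J F, ⟨heF, fun x hx y hy => (hF x hx y hy).1, fun x y hh => ⟨hh.1, hh.2.1⟩,
    fun x hx => ⟨hx, hx, fun _ _ => rfl⟩, fun x y hh => ⟨hh.2.1, hh.1, fun z hz => (hh.2.2 z hz).symm⟩,
    fun x y z hh hh' => ⟨hh.1, hh'.2.1, fun w hw => (hh.2.2 w hw).trans (hh'.2.2 w hw)⟩, hmul⟩,
    hval, hk, ⟨a, hae, har, hodd⟩, fun hsimple hexp hFu => ?_⟩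
  obtain ⟨J', hJ'⟩ := al_of_loop L R e hL.LR (fun x => ⟨hL.eL x, hL.Le x⟩) hL.aut hsimple hexp
  have hJJ : J' = J := by
    ext x
    apply (L x).injective
    rw [hJ'.LJ, hJ.LJ]
  rw [hJJ] at hJ'
  apply hae
  apply hJ'.D_inj
  ext z
  exact har.2.2 z (by rw [hFu]; exact Set.mem_univ z)

theorem sylow_aux : ∀ (n : ℕ) {Q : Type u} [Finite Q] (L R : Q → Perm Q) (e : Q), Lp L R e →
    Nat.card Q ≤ n → ∃ M : Set Q, e ∈ M ∧ (∀ x ∈ M, ∀ y ∈ M, L x y ∈ M) ∧
      Nat.card M = 2 ^ padicValNat 2 (Nat.card Q) := by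
  intro n
  induction n with
  | zero =>
    intro Q _ L R e hL hn
    have : Nonempty Q := ⟨e⟩
    have h1 : 0 < Nat.card Q := Nat.card_pos
    omega
  | succ n ih =>
    intro Q _ L R e hL hn
    by_cases heven : 2 ∣ Nat.card Q
    · obtain ⟨F, r, hs, hval, hk, ⟨a, hae, har, -⟩, -⟩ := hL.two_local heven
      obtain ⟨m, hm⟩ := hs.card_K hL hk
      have h1 := hs.card_pre hL Set.univ
      have h2 : {x | ∃ hx : x ∈ F, hs.cl x hx ∈ (Set.univ : Set hs.S)} = F := by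
        ext x
        exact ⟨fun ⟨hx, _⟩ => hx, fun hx => ⟨hx, Set.mem_univ _⟩⟩
      rw [h2, Nat.card_univ, hm] at h1
      have hm1 : 1 < Nat.card {k | r k e} := by
        rw [Finite.one_lt_card_iff_nontrivial]
        exact ⟨⟨a, har⟩, ⟨e, hs.refl e hs.eF⟩, fun hh => hae (congrArg Subtype.val hh)⟩
      have hFQ : Nat.card F ≤ Nat.card Q := Nat.card_le_card_of_injective _ Subtype.val_injective
      have : Nonempty hs.S := ⟨hs.cl e hs.eF⟩
      have hSpos : 0 < Nat.card hs.S := Nat.card_pos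
      have hS : Nat.card hs.S ≤ n := by
        have h3 : 2 * Nat.card hs.S ≤ Nat.card F := by
          rw [h1, ← hm]
          exact Nat.mul_le_mul_right _ hm1
        omega
      obtain ⟨M', he', hM', hc'⟩ := ih hs.L' (hs.R' hL) (hs.cl e hs.eF) (hs.lp hL) hS
      refine ⟨{x | ∃ hx : x ∈ F, hs.cl x hx ∈ M'}, ⟨hs.eF, he'⟩, ?_, ?_⟩
      · rintro x ⟨hx, hxM⟩ y ⟨hy, hyM⟩
        exact ⟨hs.LF x hx y hy, hM' _ hxM _ hyM⟩
      · have : Fact (Nat.Prime 2) := ⟨Nat.prime_two⟩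
        rw [hs.card_pre hL M', hm, hc', ← hval, h1, padicValNat.mul (by positivity) hSpos.ne',
          padicValNat.prime_pow, pow_add]
    · refine ⟨{e}, rfl, ?_, ?_⟩
      · rintro x rfl y rfl
        exact hL.Le _
      · rw [padicValNat.eq_zero_of_not_dvd heven, pow_zero]
        exact Nat.card_unique

/-- every finite automorphic loop has a Sylow 2-subloop -/
theorem sylow [Finite Q] (hL : Lp L R e) : ∃ M : Set Q, e ∈ M ∧
    (∀ x ∈ M, ∀ y ∈ M, L x y ∈ M ∧ (L x)⁻¹ y ∈ M ∧ (R x)⁻¹ y ∈ M) ∧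
      Nat.card M = 2 ^ padicValNat 2 (Nat.card Q) := by
  obtain ⟨M, he, hM, hc⟩ := sylow_aux (Nat.card Q) L R e hL le_rfl
  refine ⟨M, he, fun x hx y hy => ⟨hM x hx y hy, inv_mem_of_mem (hM x hx) hy,
    inv_mem_of_mem (fun z hz => ?_) hy⟩, hc⟩
  rw [← hL.LR]
  exact hM z hz x hx

end Lp

end ALoop
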